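import Mathlib

namespace Pool.Agent.Results.MP_4bb7d7_co.Sqrt

open Matrix Finset Polynomial

open Classical in
/-- geometric multiplicity of `l` as an eigenvalue of the complex adjacency matrix -/
noncomputable def mult {n : ℕ} (G : SimpleGraph (Fin n)) (l : ℂ) : ℕ :=
  Module.finrank ℂ (Module.End.eigenspace (Matrix.toLin' (G.adjMatrix ℂ)) l)

variable {n : ℕ}

theorem spec {A : Matrix (Fin n) (Fin n) ℝ} (h : A.IsHermitian) : ∃ U : Matrix (Fin n) (Fin n) ℝ,
    U * Uᵀ = 1 ∧ Uᵀ * U = 1 ∧ A = U * diagonal h.eigenvalues * Uᵀ := by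
  refine ⟨h.eigenvectorUnitary, ?_, ?_, ?_⟩
  · simpa [star_eq_conjTranspose] using Unitary.coe_mul_star_self h.eigenvectorUnitary
  · simpa [star_eq_conjTranspose] using Unitary.coe_star_mul_self h.eigenvectorUnitary
  · simpa [star_eq_conjTranspose, Function.comp_def] using h.spectral_theorem

theorem tr_conj {U : Matrix (Fin n) (Fin n) ℝ} (h : Uᵀ * U = 1) (d : Fin n → ℝ) :
    (U * diagonal d * Uᵀ).trace = ∑ k, d k := by
  rw [trace_mul_cycle, h, one_mul, trace_diagonal]

theorem sq_conj {U : Matrix (Fin n) (Fin n) ℝ} (h : Uᵀ * U = 1) (d : Fin n → ℝ) (i : Fin n) :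
    ∑ j, (U * diagonal d * Uᵀ) i j ^ 2 = (U * diagonal (fun k => d k ^ 2) * Uᵀ) i i := by
  have : U * diagonal (fun k => d k ^ 2) * Uᵀ = (U * diagonal d * Uᵀ) * (U * diagonal d * Uᵀ)ᵀ := by
    simp only [transpose_mul, transpose_transpose, diagonal_transpose, Matrix.mul_assoc]
    rw [← Matrix.mul_assoc Uᵀ, h, one_mul, ← Matrix.mul_assoc (diagonal d), diagonal_mul_diagonal]
    simp only [pow_two]
  rw [this, mul_apply]
  simp only [transpose_apply, pow_two]

theorem ent (U : Matrix (Fin n) (Fin n) ℝ) (d : Fin n → ℝ) (i j : Fin n) :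
    (U * diagonal d * Uᵀ) i j = ∑ k, d k * U i k * U j k := by
  rw [mul_apply]
  exact sum_congr rfl fun k _ => by rw [mul_diagonal, transpose_apply]; ring

theorem tr_ineq {N : Matrix (Fin n) (Fin n) ℝ} (h : N.IsHermitian) :
    N.trace ^ 2 ≤ N.rank * ∑ i, ∑ j, N i j ^ 2 := by
  obtain ⟨U, -, h2, e⟩ := spec h
  have e1 : N.trace = ∑ k with h.eigenvalues k ≠ 0, h.eigenvalues k := by
    rw [sum_filter_ne_zero, ← tr_conj h2, ← e]
  have e2 : ∑ i, ∑ j, N i j ^ 2 = ∑ k, h.eigenvalues k ^ 2 := by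
    rw [← tr_conj h2 fun k => h.eigenvalues k ^ 2, trace]
    exact sum_congr rfl fun i _ => by rw [diag_apply, ← sq_conj h2, ← e]
  rw [e1, e2, h.rank_eq_card_non_zero_eigs, Fintype.card_subtype]
  refine sq_sum_le_card_mul_sum_sq.trans (mul_le_mul_of_nonneg_left ?_ (Nat.cast_nonneg _))
  exact sum_le_sum_of_subset_of_nonneg (filter_subset _ _) fun _ _ _ => sq_nonneg _

theorem core {A U : Matrix (Fin n) (Fin n) ℝ} {μ : Fin n → ℝ} (h1 : U * Uᵀ = 1) (h2 : Uᵀ * U = 1)
    (e : A = U * diagonal μ * Uᵀ) (h01 : ∀ i j, A i j = 0 ∨ A i j = 1) (h0 : ∀ i, A i i = 0)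
    (T : Finset (Fin n)) (hT : ∀ k ∉ T, μ k ^ 2 ≤ 6) (m : ℝ) (hm : ∑ k ∈ Tᶜ, μ k = m)
    (hc : (Tᶜ.card : ℝ) = m) : m ≤ 96 * (T.card ^ 2 + T.card) := by
  let s : Fin n → ℝ := fun k => if k ∈ Tᶜ then μ k else 0
  let l : Fin n → ℝ := fun k => if k ∈ T then μ k else 0
  set S := U * diagonal s * Uᵀ with hS
  set L := U * diagonal l * Uᵀ with hL
  have hA : ∀ i j, L i j = A i j - S i j := fun i j => by
    rw [e, hS, hL, ent, ent, ent, ← sum_sub_distrib]
    exact sum_congr rfl fun k _ => by by_cases h : k ∈ T <;> simp [s, l, h]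
  have hs : ∀ k, s k ^ 2 ≤ if k ∈ Tᶜ then 6 else 0 := fun k => by
    by_cases h : k ∈ T <;> simp [s, h, hT k]
  let N : Matrix (Fin n) (Fin n) ℝ := of fun i j => L i j ^ 2 - L i j
  have hLe : ∀ i j, L i j = ∑ k : T, μ k * U i k * U j k := fun i j => by
    rw [hL, ent, sum_coe_sort T fun k => μ k * U i k * U j k, ← sum_subset (subset_univ T)]
    · exact sum_congr rfl fun k hk => by simp [l, hk]
    · intro k _ hk; simp [l, hk]
  have hN : N.IsHermitian := by
    ext i j
    simp only [N, conjTranspose_apply, of_apply, star_trivial, hLe, mul_right_comm]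
  have hr : N.rank ≤ T.card ^ 2 + T.card := by
    have : N = (of fun i (x : (T × T) ⊕ T) => Sum.elim (fun p : T × T => μ p.1 * μ p.2 * U i p.1 * U i p.2)
        (fun k : T => -(μ k * U i k)) x) * of fun (x : (T × T) ⊕ T) j =>
        Sum.elim (fun p : T × T => U j p.1 * U j p.2) (fun k : T => U j k) x := by
      ext i j
      simp only [N, of_apply, mul_apply, Fintype.sum_sum_type, Sum.elim_inl, Sum.elim_inr, hLe, pow_two,
        Fintype.sum_prod_type, sum_mul_sum, neg_mul, sum_neg_distrib, sub_eq_add_neg]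
      congr 1
      exact sum_congr rfl fun _ _ => sum_congr rfl fun _ _ => by ring
    rw [this]
    exact (rank_mul_le_left _ _).trans ((rank_le_card_width _).trans (by simp [pow_two]))
  have row : ∀ i, ∑ j, S i j ^ 2 ≤ 6 := fun i => by
    have : ∑ k, U i k * U i k = 1 := by simpa [mul_apply] using congrFun (congrFun h1 i) i
    rw [hS, sq_conj h2, ent, ← mul_one (6 : ℝ), ← this, mul_sum]
    refine sum_le_sum fun k _ => ?_
    have := hs k
    rw [mul_assoc]
    exact mul_le_mul_of_nonneg_right (by split_ifs at this <;> linarith) (mul_self_nonneg _)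
  have tot : ∑ i, ∑ j, S i j ^ 2 ≤ 6 * m := by
    have : ∑ i, ∑ j, S i j ^ 2 = ∑ k, s k ^ 2 := by
      rw [← tr_conj h2 fun k => s k ^ 2, trace]
      exact sum_congr rfl fun i _ => by rw [diag_apply, ← sq_conj h2]
    rw [this, ← hc]
    refine (sum_le_sum fun k _ => hs k).trans ?_
    rw [← sum_filter, filter_univ_mem]; simp [mul_comm]
  have fro : ∑ i, ∑ j, N i j ^ 2 ≤ 16 * (6 * m) := by
    refine le_trans ?_ (mul_le_mul_of_nonneg_left tot (by norm_num))
    simp only [mul_sum]
    refine sum_le_sum fun i _ => sum_le_sum fun j _ => ?_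
    have a := (single_le_sum (f := fun j => S i j ^ 2) (fun _ _ => sq_nonneg _) (mem_univ j)).trans (row i)
    simp only [N, of_apply, hA]
    have b : (S i j + 1) ^ 2 ≤ 16 := by nlinarith [sq_nonneg (S i j - 3)]
    have c : (S i j - 1) ^ 2 ≤ 16 := by nlinarith [sq_nonneg (S i j + 3)]
    rcases h01 i j with h | h <;> rw [h] <;> nlinarith [sq_nonneg (S i j)]
  have tr : m ≤ N.trace := by
    have : S.trace = m := by rw [hS, tr_conj h2, ← hm, ← sum_filter, filter_univ_mem]
    rw [← this]
    exact sum_le_sum fun i _ => by simp only [N, diag_apply, of_apply, hA, h0]; nlinarith [sq_nonneg (S i i)]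
  have k := tr_ineq hN
  have hr' : (N.rank : ℝ) ≤ T.card ^ 2 + T.card := by exact_mod_cast hr
  have m0 : 0 ≤ m := hc ▸ Nat.cast_nonneg _
  have k2 : m ^ 2 ≤ (T.card ^ 2 + T.card) * (16 * (6 * m)) :=
    ((pow_le_pow_left₀ m0 tr 2).trans k).trans
      (mul_le_mul hr' fro (by positivity) (by positivity))
  rcases m0.eq_or_lt with h | h
  · rw [← h]; positivity
  · nlinarith

open Classical in
theorem herm (G : SimpleGraph (Fin n)) : (G.adjMatrix ℝ).IsHermitian := by
  simp [IsHermitian]

open Classical in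
theorem conj (G : SimpleGraph (Fin n)) : #{k | (herm G).eigenvalues k = 1 + √2} =
    #{k | (herm G).eigenvalues k = 1 - √2} := by
  have c : ∀ x : ℝ, #{k | (herm G).eigenvalues k = x} = rootMultiplicity x (G.adjMatrix ℝ).charpoly :=
    fun x => by
      rw [← count_roots, (herm G).roots_charpoly_eq_eigenvalues, Multiset.count_map]
      simp [eq_comm, Finset.card, Finset.filter]
  have k : ∀ r : {r : ℝ // r * r = ((2 : ℤ) : ℝ)}, rootMultiplicity (1 + r.1) (G.adjMatrix ℝ).charpoly =
      rootMultiplicity ⟨1, 1⟩ (G.adjMatrix (ℤ√2)).charpoly := fun r => by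
    rw [eq_rootMultiplicity_map (Zsqrtd.lift_injective r fun n h => by
      have : n ≤ 1 := by nlinarith
      have : -1 ≤ n := by nlinarith
      interval_cases n <;> omega), ← charpoly_map]
    congr 1
    · simp
    · congr 1; ext i j; simp [apply_ite]
  rw [c, c, k ⟨√2, by simp⟩, sub_eq_add_neg, k ⟨-√2, by simp⟩]

theorem mult_eq (G : SimpleGraph (Fin n)) (x : ℝ) : mult G x = #{k | (herm G).eigenvalues k = x} := by
  classical
  obtain ⟨U, h1, h2, e⟩ := spec (herm G)
  let V := U.map Complex.ofRealHom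
  have v1 : V * Vᵀ = 1 := by simp only [V, ← transpose_map, ← Matrix.map_mul, h1]; simp
  have e' : G.adjMatrix ℂ - (x : ℂ) • 1 =
      V * diagonal (fun k => ((herm G).eigenvalues k : ℂ) - x) * Vᵀ := by
    have : G.adjMatrix ℂ = V * diagonal (fun k => ((herm G).eigenvalues k : ℂ)) * Vᵀ := by
      have := congrArg (·.map Complex.ofRealHom) e
      simp only [Matrix.map_mul, diagonal_map (map_zero _), transpose_map] at this
      refine Eq.trans ?_ this
      ext i j; simp [apply_ite]
    rw [← diagonal_sub, mul_sub, sub_mul, ← this, ← smul_one_eq_diagonal]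
    simp [v1]
  have hu := (isUnit_iff_isUnit_det _).1 (IsUnit.of_mul_eq_one _ v1)
  have hr : (G.adjMatrix ℂ - (x : ℂ) • 1).rank = #{k | ¬ (herm G).eigenvalues k = x} := by
    rw [e', rank_mul_eq_left_of_isUnit_det _ _ (by rwa [det_transpose]),
      rank_mul_eq_right_of_isUnit_det _ _ hu, rank_diagonal, Fintype.card_subtype]
    simp [sub_eq_zero]
  have h3 := LinearMap.finrank_range_add_finrank_ker (G.adjMatrix ℂ - (x : ℂ) • 1).mulVecLin
  have h4 := card_filter_add_card_filter_not (s := univ) fun k => (herm G).eigenvalues k = x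
  rw [← Matrix.rank, hr] at h3
  have h5 : mult G x = Module.finrank ℂ (LinearMap.ker (G.adjMatrix ℂ - (x : ℂ) • 1).mulVecLin) := by
    rw [mult, Module.End.eigenspace_def, ← toLin'_apply', map_sub, map_smul, toLin'_one]
    congr!
  simp only [Module.finrank_fintype_fun_eq_card, card_univ] at h3 h4
  omega

def H : SimpleGraph (Fin 6) := SimpleGraph.fromRel fun a b => a.val + 3 = b.val ∨ (a.val + 1 = b.val ∧ a ≠ 2)

theorem result : ∃ (l c : ℝ) (n₀ : ℕ), IsIntegral ℤ l ∧ 2 ≤ (minpoly ℚ l).natDegree ∧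
    (∃ (k : ℕ) (G : SimpleGraph (Fin k)), mult G l ≠ 0) ∧ 0 < c ∧
    ∀ n, n₀ ≤ n → ∀ G : SimpleGraph (Fin n), (mult G l : ℝ) ≤ n / (minpoly ℚ l).natDegree - c * √n := by
  classical
  have s2 : √2 * √2 = 2 := Real.mul_self_sqrt (by norm_num)
  have s1 : √2 < 1.42 := by nlinarith [Real.sqrt_nonneg 2]
  have hi : IsIntegral ℤ (1 + √2) := ⟨X ^ 2 - C 2 * X - C 1, by monicity!, by simp; nlinarith⟩
  have hd : (minpoly ℚ (1 + √2)).natDegree = 2 := by
    refine le_antisymm ?_ ((minpoly.two_le_natDegree_iff hi.tower_top).2 ?_)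
    · have := minpoly.min ℚ (1 + √2) (p := X ^ 2 - C 2 * X - C 1) (by monicity!) (by simp; nlinarith)
      exact natDegree_le_iff_degree_le.2 (this.trans (by compute_degree!))
    · simpa [Irrational] using irrational_sqrt_two.natCast_add 1
  refine ⟨1 + √2, 1 / 28, 0, hi, hd.ge, ⟨6, H, fun h => ?_⟩, by norm_num, fun n _ G => ?_⟩
  · have h := Submodule.finrank_eq_zero.1 h
    have s3 : (√2 : ℂ) * √2 = 2 := by exact_mod_cast s2
    have := (Submodule.eq_bot_iff _).1 h ![1, √2, 1, 1, √2, 1] (by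
      rw [Module.End.mem_eigenspace_iff]
      ext i
      fin_cases i <;> simp [mulVec, dotProduct, Fin.sum_univ_six, H] <;>
        first | linear_combination -s3 | ring)
    simpa using congrFun this 0
  · obtain ⟨U, h1, h2, e⟩ := spec (herm G)
    have hc := conj G
    rw [mult_eq, hd]
    set μ := (herm G).eigenvalues
    have hne : 1 + √2 ≠ 1 - √2 := fun h => by nlinarith
    have hdis : Disjoint (univ.filter fun k => μ k = 1 + √2) (univ.filter fun k => μ k = 1 - √2) :=
      disjoint_filter.2 fun k _ a b => hne (a.symm.trans b)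
    have := core h1 h2 e (fun i j => by simp only [SimpleGraph.adjMatrix_apply]; split_ifs <;> simp)
      (by simp) ((univ.filter fun k => μ k = 1 + √2) ∪ univ.filter fun k => μ k = 1 - √2)ᶜ
      (fun k hk => by
        simp only [mem_compl, not_not, mem_union, mem_filter, mem_univ, true_and] at hk
        rcases hk with h | h <;> rw [h] <;> nlinarith [Real.sqrt_nonneg 2])
      (2 * #{k | μ k = 1 + √2})
      (by
        rw [compl_compl, sum_union hdis, sum_congr rfl fun k hk => (mem_filter.1 hk).2,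
          sum_congr rfl fun k hk => (mem_filter.1 hk).2, sum_const, sum_const, ← hc]
        simp; ring)
      (by rw [compl_compl, card_union_of_disjoint hdis, ← hc]; push_cast; ring)
    have hn := card_add_card_compl ((univ.filter fun k => μ k = 1 + √2) ∪ univ.filter fun k => μ k = 1 - √2)
    rw [card_union_of_disjoint hdis, ← hc, Fintype.card_fin] at hn
    generalize #((univ.filter fun k => μ k = 1 + √2) ∪ univ.filter fun k => μ k = 1 - √2)ᶜ = r at *
    generalize #{k | μ k = 1 + √2} = m at *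
    have hn' : (n : ℝ) = m + m + r := by exact_mod_cast hn.symm
    have hr : (r : ℝ) ≤ r ^ 2 := by exact_mod_cast Nat.le_self_pow (by norm_num) r
    have : √n ≤ 14 * r := Real.sqrt_le_iff.2 ⟨by positivity, by nlinarith⟩
    push_cast
    linarith

end Pool.Agent.Results.MP_4bb7d7_co.Sqrt
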